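import Pool.Agent.H51.DQ.Final

set_option autoImplicit false

/-!
# MP_fb3dca_pr, Q1: the limiting shape of the boundary-penalised walk is at distance
`O(β^(-1/4))` from the diamond, with the sharp size, boundary and free energy of the range

All definitions of the model are written out below.
-/

namespace Pool.Agent.Results.MP_fb3dca_pr.QuantitativeDiamond

open Finset Filter Topology
open scoped Classical ENNReal

noncomputable section

/-- the four unit vectors, indexed by `Bool × Bool` -/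
def step : Bool × Bool → ℤ × ℤ
  | (true, true) => (1, 0)
  | (true, false) => (0, 1)
  | (false, true) => (0, -1)
  | (false, false) => (-1, 0)

/-- position after `k` jumps of the walk with jumps `ω`, started at the origin -/
def position {n : ℕ} (ω : Fin n → Bool × Bool) (k : ℕ) : ℤ × ℤ :=
  ∑ i : Fin n, if (i : ℕ) < k then step (ω i) else 0

/-- the set of sites visited by the walk with jumps `ω`, started at the origin -/
def visited {n : ℕ} (ω : Fin n → Bool × Bool) : Finset (ℤ × ℤ) :=
  (Finset.range (n + 1)).image (position ω)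

/-- nearest-neighbour adjacency in `ℤ²` -/
def Adj (x y : ℤ × ℤ) : Prop := |x.1 - y.1| + |x.2 - y.2| = 1

/-- inner vertex boundary -/
def innerBoundary (G : Finset (ℤ × ℤ)) : Finset (ℤ × ℤ) :=
  G.filter fun x => ∃ y, Adj x y ∧ y ∉ G

/-- `𝔼 f(R_t)`: the number of jumps up to time `t` is Poisson of mean `t`, the jumps are independent
and uniform -/
def expect (t : ℝ) (f : Finset (ℤ × ℤ) → ℝ) : ℝ :=
  ∑' n : ℕ, Real.exp (-t) * t ^ n / n.factorial *
    ((∑ ω : Fin n → Bool × Bool, f (visited ω)) / 4 ^ n)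

/-- the partition function `Z = 𝔼 exp (-β |∂R_t|)` -/
def partitionFunction (β t : ℝ) : ℝ := expect t fun G => Real.exp (-β * (innerBoundary G).card)

/-- `μ_t (R_t ∈ A)` -/
def gibbs (β t : ℝ) (A : Set (Finset (ℤ × ℤ))) : ℝ :=
  expect t (fun G => if G ∈ A then Real.exp (-β * (innerBoundary G).card) else 0) /
    partitionFunction β t

/-- a lattice point as a point of the plane -/
def toC (x : ℤ × ℤ) : ℂ := ⟨x.1, x.2⟩

/-- the Euclidean diameter -/
def diameter (G : Finset (ℤ × ℤ)) : ℝ := Metric.diam (toC '' (G : Set (ℤ × ℤ)))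

/-- `R / diam R` as a subset of the plane -/
def rescaled (G : Finset (ℤ × ℤ)) : Set ℂ :=
  (fun z : ℂ => z / (diameter G : ℂ)) '' (toC '' (G : Set (ℤ × ℤ)))

/-- `inf_z d_Haus (A, z + B)` -/
def dHaus (A B : Set ℂ) : ℝ≥0∞ := ⨅ z : ℂ, Metric.hausdorffEDist A ((fun x => z + x) '' B)

/-- `S` is a limiting shape for `β` -/
def IsLimitingShape (β : ℝ) (S : Set ℂ) : Prop :=
  ∀ ε : ℝ≥0∞, 0 < ε → Tendsto (fun t => gibbs β t {G | ε < dHaus (rescaled G) S}) atTop (𝓝 0)

/-- the diamond of unit diameter -/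
def diamond : Set ℂ := {z | |z.re| + |z.im| ≤ 1 / 2}

/-- the length `(π² t / β)^(1/3)` -/
def len (β t : ℝ) : ℝ := (Real.pi ^ 2 * t / β) ^ ((1 : ℝ) / 3)

/-- The conclusions about the range `G`, for the inverse temperature `β`, the length `p` and the
constant `A`: shape, diameter, boundary, and the circumscribed box `a ≤ x + y ≤ b`, `c ≤ x - y ≤ d`
(a diamond up to a relative error `A β^(-1/2)`), whose sides `b - a`, `d - c` determine the boundary
up to a relative error `A / β`. -/
def Typical (A β p : ℝ) (G : Finset (ℤ × ℤ)) : Prop :=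
  dHaus (rescaled G) diamond ≤ ENNReal.ofReal (A * β ^ (-(1 / 4) : ℝ)) ∧
  |diameter G - p| ≤ A * β ^ (-(1 / 4) : ℝ) * p ∧
  |((innerBoundary G).card : ℝ) - 2 * p| ≤ A * β ^ (-(1 / 2) : ℝ) * p ∧
  ∃ a b c d : ℤ, G.image (fun x => x.1 + x.2) = Icc a b ∧ G.image (fun x => x.1 - x.2) = Icc c d ∧
    |((b - a : ℤ) : ℝ) - p| ≤ A * β ^ (-(1 / 2) : ℝ) * p ∧
    |((d - c : ℤ) : ℝ) - p| ≤ A * β ^ (-(1 / 2) : ℝ) * p ∧
    |((innerBoundary G).card : ℝ) - (((b - a : ℤ) : ℝ) + ((d - c : ℤ) : ℝ))| ≤ A / β * p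

/-- (1) Every choice `S β` of limiting shapes (for all large `β`) converges to the diamond of unit
diameter as `β → ∞`. (2) There are `A, β₀ > 0` such that for every `β ≥ β₀`: every limiting shape for
`β` is at distance at most `A β^(-1/4)` from the diamond (up to translation); with no existence
hypothesis, the range `R_t` is `Typical` for `p = (π² t / β)^(1/3)` with `μ_t`-probability tending
to one as `t → ∞`; and `|log Z + 3 β p| ≤ A p` for all large `t`. -/
theorem result :
    (∀ S : ℝ → Set ℂ, (∀ᶠ β in atTop, IsLimitingShape β (S β)) →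
      Tendsto (fun β => dHaus (S β) diamond) atTop (𝓝 0)) ∧
    ∃ A β₀ : ℝ, 0 < A ∧ 0 < β₀ ∧ ∀ β : ℝ, β₀ ≤ β →
      (∀ S : Set ℂ, IsLimitingShape β S →
        dHaus S diamond ≤ ENNReal.ofReal (A * β ^ (-(1 / 4) : ℝ))) ∧
      Tendsto (fun t => gibbs β t {G | ¬ Typical A β (len β t) G}) atTop (𝓝 0) ∧
      ∀ᶠ t in atTop, |Real.log (partitionFunction β t) + 3 * β * len β t| ≤ A * len β t :=
  Pool.Agent.H51.DQ.finalX

end

end Pool.Agent.Results.MP_fb3dca_pr.QuantitativeDiamond
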